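import Pool.Agent.Lib.Pf720pr.PhaseMeas
import Pool.Agent.Lib.Pf720pq.ConvM

/-!
# Gaussian and Poisson factors and independent phase polynomials
-/

set_option autoImplicit false
set_option linter.unusedSectionVars false

open MeasureTheory Filter Topology ProbabilityTheory
open scoped ENNReal ComplexConjugate

namespace Pool.Agent.Lib.Pf720pr

open Pool.Agent.Lib.Pf720ae Pool.Agent.Lib.Pf720pi Pool.Agent.Lib.Pf720gs
open Pool.Agent.Lib.Pf720po (IsPoisson N_pw permActS isPoisson_trim indep_trim gen_KP KP)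
open Pool.Agent.Lib.Pf720mp (Ex mon exs eval_eq_sum_ex)
open Pool.Agent.Lib.Pf720pm (pv Dep IsPol PolR PolC cls isPol_cls polC_of_polR)
open Pool.Agent.Lib.Pf720pq (RetM exists_pvs polC_of_trim)

variable {V X Y : Type} [AddCommGroup V] [Module ℝ V]

section ph

variable {mX : MeasurableSpace X} {μ : Measure X} {d : ℕ}

lemma isPh_one (act : MAct (Fin d → ℤ) X μ) : IsPh act (fun _ => 1) :=
  Eventually.of_forall fun x => ⟨0, fun u => by simp⟩

lemma IsPh.mul {act : MAct (Fin d → ℤ) X μ} {E E' : X → ℂ} (h : IsPh act E) (h' : IsPh act E') :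
    IsPh act (fun x => E x * E' x) := by
  filter_upwards [h, h'] with x hx hx'
  obtain ⟨p, hp⟩ := hx
  obtain ⟨p', hp'⟩ := hx'
  refine ⟨p + p', fun u => ?_⟩
  rw [hp, hp', ← Complex.exp_add, map_add]
  push_cast
  ring_nf

lemma IsPh.cj {act : MAct (Fin d → ℤ) X μ} {E : X → ℂ} (h : IsPh act E) :
    IsPh act (fun x => conj (E x)) := by
  filter_upwards [h] with x hx
  obtain ⟨p, hp⟩ := hx
  refine ⟨-p, fun u => ?_⟩
  rw [hp, ← Complex.exp_conj, map_mul, Complex.conj_ofReal, Complex.conj_I, map_neg]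
  push_cast
  ring_nf

lemma IsPh.shift {act : MAct (Fin d → ℤ) X μ} {E : X → ℂ} (h : IsPh act E) (v : Fin d → ℤ) :
    IsPh act (fun x => E (act.S v x)) := by
  filter_upwards [h] with x hx
  obtain ⟨p, hp⟩ := hx
  refine ⟨MvPolynomial.bind₁ (fun i => MvPolynomial.X i + MvPolynomial.C (v i : ℝ)) p,
    fun u => ?_⟩
  rw [← act.add, hp]
  congr 3
  have h2 := MvPolynomial.eval₂Hom_bind₁ (RingHom.id ℝ) (fun i : Fin d => (u i : ℝ))
    (fun i => MvPolynomial.X i + MvPolynomial.C (v i : ℝ)) p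
  have h3 : MvPolynomial.eval (fun i => (u i : ℝ))
      (MvPolynomial.bind₁ (fun i => MvPolynomial.X i + MvPolynomial.C (v i : ℝ)) p) =
      MvPolynomial.eval (fun i => MvPolynomial.eval (fun i => (u i : ℝ))
        (MvPolynomial.X i + MvPolynomial.C (v i : ℝ))) p := h2
  rw [h3]
  congr 2
  funext i
  rw [map_add, MvPolynomial.eval_X, MvPolynomial.eval_C, Pi.add_apply]
  push_cast
  ring

end ph

section tr

variable {d : ℕ}

/-- the group of the phase polynomials measurable with respect to `𝒜` -/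
def Pset (𝒜 : MeasurableSpace X) {mX : MeasurableSpace X} {μ : Measure X}
    (act : MAct (Fin d → ℤ) X μ) : Set (X → ℂ) :=
  {E | Measurable[𝒜] E ∧ (∀ x, ‖E x‖ = 1) ∧ IsPh act E}

lemma ugroup_Pset {𝒜 : MeasurableSpace X} {mX : MeasurableSpace X} {μ : Measure X}
    (act : MAct (Fin d → ℤ) X μ) (hA : 𝒜 ≤ mX) :
    UGroup (Pset 𝒜 act) where
  meas E hE := hE.1.mono hA le_rfl
  norm E hE := hE.2.1
  one := ⟨measurable_const, fun _ => norm_one, isPh_one act⟩
  mul E hE E' hE' := ⟨hE.1.mul hE'.1, fun x => by rw [norm_mul, hE.2.1, hE'.2.1, one_mul],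
    hE.2.2.mul hE'.2.2⟩
  cj E hE := ⟨Complex.continuous_conj.measurable.comp hE.1,
    fun x => by rw [Complex.norm_conj, hE.2.1], hE.2.2.cj⟩

/-- passing to a smaller σ-algebra -/
lemma isPh_trim {m : MeasurableSpace X} {mX : MeasurableSpace X} {μ : Measure X}
    (act : MAct (Fin d → ℤ) X μ) (hm : m ≤ mX)
    (hact : ∀ w, Measurable[m, m] (act.S w)) {E : X → ℂ} (hEm : Measurable[m] E)
    (h : IsPh act E) : @IsPh X m (μ.trim hm) d (trimAct m act hm hact) E := by
  have hs : MeasurableSet[m] {x | (fun u : Fin d → ℤ => E (act.S u x)) ∈ PhSeq d} := by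
    have h1 : Measurable[m] fun x => fun u : Fin d → ℤ => E (act.S u x) :=
      (@measurable_pi_iff X (Fin d → ℤ) (fun _ => ℂ) m _ _).2 fun u => hEm.comp (hact u)
    exact h1 (measurableSet_phSeq d)
  have h0 : ∀ᵐ x ∂μ, x ∈ {x | (fun u : Fin d → ℤ => E (act.S u x)) ∈ PhSeq d} := h
  unfold IsPh
  have h1 : ∀ᵐ x ∂(μ.trim hm), x ∈ {x | (fun u : Fin d → ℤ => E (act.S u x)) ∈ PhSeq d} := by
    rw [ae_iff] at h0 ⊢
    have e : {a | ¬ a ∈ {x | (fun u : Fin d → ℤ => E (act.S u x)) ∈ PhSeq d}} =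
        {x | (fun u : Fin d → ℤ => E (act.S u x)) ∈ PhSeq d}ᶜ := rfl
    rw [e] at h0 ⊢
    rw [trim_measurableSet_eq hm (@MeasurableSet.compl X _ m hs)]
    exact h0
  exact h1

end tr

lemma poisson_trimW (m 𝒜 : MeasurableSpace X)
    {mX : MeasurableSpace X} {mY : MeasurableSpace Y} {μ : Measure X} [IsProbabilityMeasure μ]
    {d : ℕ}
    (g : GF V X μ) (act : MAct (Fin d → ℤ) X μ) (S : (Fin d → ℤ) → V →ₗ[ℝ] V)
    (hS : ∀ w v x, g.G (S w v) x = g.G v (act.S w x))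
    (hSadd : ∀ w w' v, S (w + w') v = S w (S w' v))
    (hBi : ∀ w u v, g.B (S w u) (S w v) = g.B u v)
    {ν : Measure Y} {N : X → Measure Y} (hN : IsPoisson μ ν N) (R : MAct (Fin d → ℤ) Y ν)
    (hNR : ∀ w x, N (act.S w x) = (N x).map (R.S w))
    (hind : Indep (⨆ v, MeasurableSpace.comap (g.G v) (borel ℝ))
      (MeasurableSpace.comap N inferInstance) μ)
    {B : ℕ → Set Y} (hBmono : Monotone B)
    (hB : ∀ r, MeasurableSet (B r)) (hνB : ∀ r, ν (B r) < ⊤) (hBU : ⋃ r, B r = Set.univ)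
    (hret : ∀ r, RetM R (B r))
    (hA : 𝒜 ≤ mX)
    (hindW : Indep 𝒜 ((⨆ v, MeasurableSpace.comap (g.G v) (borel ℝ)) ⊔
      MeasurableSpace.comap N inferInstance) μ)
    (hAinv : ∀ w, Measurable[𝒜, 𝒜] (act.S w))
    (hAgen : 𝒜 ≤ ⨆ p : (Pset 𝒜 act) × Bool, MeasurableSpace.comap
      (fun x => if p.2 then (p.1.1 x).re else (p.1.1 x).im) (borel ℝ))
    (hm : m = ((⨆ v, MeasurableSpace.comap (g.G v) (borel ℝ)) ⊔
      MeasurableSpace.comap N inferInstance) ⊔ 𝒜) (hmX : m ≤ mX)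
    (hact : ∀ w, Measurable[m, m] (act.S w)) (K : Set ℕ)
    (Q : (k : ℕ) → Set (Fin d → MvPolynomial (Fin k) ℤ)) :
    @PolR X m (μ.trim hmX) d K (cls Q) act.S m := by
  intro κ _ _ J _ _ e F _ he hFm hF1
  obtain ⟨D, q, hq⟩ := exists_pvs fun j => (isPol_cls Q κ (e j) (he j)).1
  have hle1 : (⨆ v, MeasurableSpace.comap (g.G v) (borel ℝ)) ≤ m := by
    rw [hm]
    exact le_sup_left.trans le_sup_left
  have hle2 : MeasurableSpace.comap N inferInstance ≤ m := by
    rw [hm]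
    exact le_sup_right.trans le_sup_left
  have hle3 : 𝒜 ≤ m := by
    rw [hm]
    exact le_sup_right
  have hgm : ∀ v, Measurable[m] (g.G v) := fun v =>
    (measurable_iSup_comap g.G v).mono hle1 le_rfl
  have hNm : Measurable[m] N := by
    rw [measurable_iff_comap_le]
    exact hle2
  have : @IsProbabilityMeasure X m (μ.trim hmX) := by
    refine @IsProbabilityMeasure.mk X m _ ?_
    rw [trim_measurableSet_eq hmX (@MeasurableSet.univ X m)]
    exact measure_univ
  have hN' := isPoisson_trim m hN hmX hNm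
  -- the phases
  set Pu : Set (X → ℂ) := Pset 𝒜 act with hPu
  have hP' : @UGroup X m Pu :=
    @UGroup.mk X m Pu (fun E hE => hE.1.mono hle3 le_rfl) (fun E hE => hE.2.1)
      (ugroup_Pset act hA).one (ugroup_Pset act hA).mul (ugroup_Pset act hA).cj
  have hle4 : (⨆ E : Pu, MeasurableSpace.comap E.1 (borel ℂ)) ≤ 𝒜 := by
    refine iSup_le fun E => ?_
    rw [← BorelSpace.measurable_eq (α := ℂ)]
    exact Measurable.comap_le E.2.1
  have h1 := @realW V X Y _ _ m mY (μ.trim hmX) _ κ _ _ d D J _ _ (g.trim m hmX hgm)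
    (trimAct m act hmX hact) S hS hSadd hBi ν N hN' R hNR
    (indep_trim m hmX hle1 hle2 hind) B hBmono hB hνB hret Pu hP'
    (fun E hE u => ⟨hE.1.comp (hAinv u), fun x => hE.2.1 _, hE.2.2.shift u⟩)
    (fun E hE => isPh_trim act hmX hact (hE.1.mono hle3 le_rfl) hE.2.2)
    (indep_trim m hmX (hle4.trans hle3) (sup_le hle1 hle2)
      (indep_of_indep_of_le_left hindW hle4)) ?_ q F hFm hF1
  · simp only [hq]
    exact h1
  intro D hD
  set mK : MeasurableSpace X := ⨆ i, MeasurableSpace.comap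
    (@KW V X Y _ _ m mY (μ.trim hmX) (g.trim m hmX hgm) N B ν Pu i) (borel ℝ) with hmK
  have hKle : mK ≤ @eventuallyMeasurableSpace X mK (@ae X (@Measure X m) _ _ (μ.trim hmX)) _ :=
    fun s hs => ⟨s, hs, EventuallyEq.rfl⟩
  have h3 : (⨆ v, MeasurableSpace.comap (g.G v) (borel ℝ)) ⊔
      MeasurableSpace.comap N inferInstance ≤
      @eventuallyMeasurableSpace X mK (@ae X (@Measure X m) _ _ (μ.trim hmX)) _ := by
    intro s hs
    obtain ⟨s', hs', hss'⟩ := @gen_KP V X Y _ _ m mY (μ.trim hmX) _ (g.trim m hmX hgm) ν N hN' B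
      hBmono hB hνB hBU s hs
    refine ⟨s', ?_, hss'⟩
    have h4 : (⨆ i, MeasurableSpace.comap
        (@KP V X Y _ _ m mY (μ.trim hmX) (g.trim m hmX hgm) N B ν i) (borel ℝ)) ≤ mK :=
      iSup_le fun i => le_iSup (fun i => MeasurableSpace.comap
        (@KW V X Y _ _ m mY (μ.trim hmX) (g.trim m hmX hgm) N B ν Pu i) (borel ℝ)) (Sum.inl i)
    exact h4 _ hs'
  have h5 : 𝒜 ≤ mK := by
    refine hAgen.trans (iSup_le fun p => ?_)
    exact le_iSup (fun i => MeasurableSpace.comap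
        (@KW V X Y _ _ m mY (μ.trim hmX) (g.trim m hmX hgm) N B ν Pu i) (borel ℝ)) (Sum.inr p)
  have hD' : MeasurableSet[((⨆ v, MeasurableSpace.comap (g.G v) (borel ℝ)) ⊔
      MeasurableSpace.comap N inferInstance) ⊔ 𝒜] D := by
    rw [← hm]
    exact hD
  exact (sup_le h3 (h5.trans hKle)) D hD'

end Pool.Agent.Lib.Pf720pr
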