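import Pool.Agent.Lib.Pf720pr.ExpoW

/-!
# Products of phases and exponentials are total
-/

set_option autoImplicit false
set_option linter.unusedSectionVars false

open MeasureTheory Filter Topology ProbabilityTheory
open scoped ENNReal ComplexConjugate

namespace Pool.Agent.Lib.Pf720pr

open Pool.Agent.Lib.Pf720ae Pool.Agent.Lib.Pf720gs
open Pool.Agent.Lib.Pf720po

/-- groups of measurable functions of modulus one -/
structure UGroup {X : Type} [MeasurableSpace X] (Pu : Set (X → ℂ)) : Prop where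
  meas : ∀ E ∈ Pu, Measurable E
  norm : ∀ E ∈ Pu, ∀ x, ‖E x‖ = 1
  one : (fun _ => 1) ∈ Pu
  mul : ∀ E ∈ Pu, ∀ E' ∈ Pu, (fun x => E x * E' x) ∈ Pu
  cj : ∀ E ∈ Pu, (fun x => conj (E x)) ∈ Pu

variable {V X Y : Type} [AddCommGroup V] [Module ℝ V] {mX : MeasurableSpace X}
  {mY : MeasurableSpace Y} {μ : Measure X} [IsProbabilityMeasure μ]

/-- the process `KP` together with the real and imaginary parts of the phases -/
noncomputable def KW (g : GF V X μ) (N : X → Measure Y) (B : ℕ → Set Y) (ν : Measure Y)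
    (Pu : Set (X → ℂ)) :
    (V ⊕ {h : Y → ℝ // Simp ν h ∧ ∃ r, Function.support h ⊆ B r}) ⊕ (Pu × Bool) → X → ℝ :=
  Sum.elim (KP g N B ν) (fun p x => if p.2 then (p.1.1 x).re else (p.1.1 x).im)

/-- finite linear combinations of phases -/
lemma span_mul {Pu : Set (X → ℂ)} (hP : UGroup Pu) {f f' : X → ℂ}
    (hf : f ∈ Submodule.span ℂ Pu) (hf' : f' ∈ Submodule.span ℂ Pu) :
    (fun x => f x * f' x) ∈ Submodule.span ℂ Pu := by
  induction hf using Submodule.span_induction with
  | mem E hE =>
    induction hf' using Submodule.span_induction with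
    | mem E' hE' => exact Submodule.subset_span (hP.mul E hE E' hE')
    | zero =>
      simp only [Pi.zero_apply, mul_zero]
      exact (Submodule.span ℂ Pu).zero_mem
    | add u v _ _ hu hv =>
      have : (fun x => E x * (u + v) x) = (fun x => E x * u x) + fun x => E x * v x := by
        funext x
        simp only [Pi.add_apply]
        ring
      rw [this]
      exact Submodule.add_mem _ hu hv
    | smul c u _ hu =>
      have : (fun x => E x * (c • u) x) = c • fun x => E x * u x := by
        funext x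
        simp only [Pi.smul_apply, smul_eq_mul]
        ring
      rw [this]
      exact Submodule.smul_mem _ c hu
  | zero =>
    simp only [Pi.zero_apply, zero_mul]
    exact (Submodule.span ℂ Pu).zero_mem
  | add u v _ _ hu hv =>
    have : (fun x => (u + v) x * f' x) = (fun x => u x * f' x) + fun x => v x * f' x := by
      funext x
      simp only [Pi.add_apply]
      ring
    rw [this]
    exact Submodule.add_mem _ hu hv
  | smul c u _ hu =>
    have : (fun x => (c • u) x * f' x) = c • fun x => u x * f' x := by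
      funext x
      simp only [Pi.smul_apply, smul_eq_mul]
      ring
    rw [this]
    exact Submodule.smul_mem _ c hu

lemma span_pow {Pu : Set (X → ℂ)} (hP : UGroup Pu) {f : X → ℂ}
    (hf : f ∈ Submodule.span ℂ Pu) (n : ℕ) : (fun x => f x ^ n) ∈ Submodule.span ℂ Pu := by
  induction n with
  | zero =>
    simp only [pow_zero]
    exact Submodule.subset_span hP.one
  | succ n ih =>
    have := span_mul hP ih hf
    simpa only [pow_succ] using this

lemma span_bdd {Pu : Set (X → ℂ)} (hP : UGroup Pu) {f : X → ℂ}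
    (hf : f ∈ Submodule.span ℂ Pu) : Measurable f ∧ ∃ C : ℝ, 0 ≤ C ∧ ∀ x, ‖f x‖ ≤ C := by
  induction hf using Submodule.span_induction with
  | mem E hE => exact ⟨hP.meas E hE, 1, zero_le_one, fun x => (hP.norm E hE x).le⟩
  | zero => exact ⟨measurable_const, 0, le_rfl, fun x => by simp⟩
  | add u v _ _ hu hv =>
    obtain ⟨hu, C, hC0, hC⟩ := hu
    obtain ⟨hv, C', hC0', hC'⟩ := hv
    exact ⟨hu.add hv, C + C', by positivity, fun x => (norm_add_le _ _).trans
      (add_le_add (hC x) (hC' x))⟩
  | smul c u _ hu =>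
    obtain ⟨hu, C, hC0, hC⟩ := hu
    refine ⟨hu.const_smul c, ‖c‖ * C, by positivity, fun x => ?_⟩
    rw [Pi.smul_apply, norm_smul]
    exact mul_le_mul_of_nonneg_left (hC x) (norm_nonneg _)

lemma integral_span {Pu : Set (X → ℂ)} (hP : UGroup Pu) {ψ : X → ℂ} (hψ : Integrable ψ μ)
    (h : ∀ E ∈ Pu, ∫ x, ψ x * E x ∂μ = 0) {f : X → ℂ} (hf : f ∈ Submodule.span ℂ Pu) :
    ∫ x, ψ x * f x ∂μ = 0 := by
  induction hf using Submodule.span_induction with
  | mem E hE => exact h E hE
  | zero => simp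
  | add u v hu' hv' hu hv =>
    obtain ⟨hum, C, _, hC⟩ := span_bdd hP hu'
    obtain ⟨hvm, C', _, hC'⟩ := span_bdd hP hv'
    have i1 : Integrable (fun x => ψ x * u x) μ :=
      hψ.mul_bdd (c := C) hum.aestronglyMeasurable (Eventually.of_forall hC)
    have i2 : Integrable (fun x => ψ x * v x) μ :=
      hψ.mul_bdd (c := C') hvm.aestronglyMeasurable (Eventually.of_forall hC')
    simp only [Pi.add_apply, mul_add]
    rw [integral_add i1 i2, hu, hv, add_zero]
  | smul c u _ hu =>
    have : ∀ x, ψ x * (c • u) x = c * (ψ x * u x) := by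
      intro x
      simp only [Pi.smul_apply, smul_eq_mul]
      ring
    simp only [this]
    rw [integral_const_mul, hu, mul_zero]

/-- exponentials of real combinations -/
lemma integral_exp {Pu : Set (X → ℂ)} (hP : UGroup Pu) {ψ : X → ℂ} (hψ : Integrable ψ μ)
    (h : ∀ E ∈ Pu, ∫ x, ψ x * E x ∂μ = 0) {r : X → ℝ}
    (hr : (fun x => (r x : ℂ)) ∈ Submodule.span ℂ Pu) :
    ∫ x, ψ x * Complex.exp ((r x : ℂ) * Complex.I) ∂μ = 0 := by
  obtain ⟨hrm, C, hC0, hC⟩ := span_bdd hP hr
  set F : ℕ → X → ℂ := fun n x => ψ x * (((r x : ℂ) * Complex.I) ^ n / n.factorial) with hF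
  have hFm : ∀ n, Measurable fun x => ((r x : ℂ) * Complex.I) ^ n / n.factorial := fun n =>
    ((hrm.mul_const _).pow_const n).div_const _
  have hFb : ∀ n x, ‖((r x : ℂ) * Complex.I) ^ n / n.factorial‖ ≤ C ^ n / n.factorial := by
    intro n x
    rw [norm_div, norm_pow, norm_mul, Complex.norm_I, mul_one, Complex.norm_natCast]
    exact div_le_div_of_nonneg_right (pow_le_pow_left₀ (norm_nonneg _) (hC x) n) (by positivity)
  have hFi : ∀ n, Integrable (F n) μ := fun n =>
    hψ.mul_bdd (c := C ^ n / n.factorial) (hFm n).aestronglyMeasurable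
      (Eventually.of_forall (hFb n))
  have hFs : Summable fun n => ∫ x, ‖F n x‖ ∂μ := by
    refine Summable.of_nonneg_of_le (fun n => integral_nonneg fun x => norm_nonneg _)
      (fun n => ?_) ((Real.summable_pow_div_factorial C).mul_left (∫ x, ‖ψ x‖ ∂μ))
    rw [← integral_mul_const]
    refine integral_mono (hFi n).norm (hψ.norm.mul_const _) fun x => ?_
    simp only [hF]
    rw [norm_mul]
    exact mul_le_mul_of_nonneg_left (hFb n x) (norm_nonneg _)
  have h1 := hasSum_integral_of_summable_integral_norm hFi hFs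
  have h2 : ∀ n, ∫ x, F n x ∂μ = 0 := by
    intro n
    have h3 := integral_span hP hψ h (Submodule.smul_mem _ (Complex.I ^ n / n.factorial)
      (span_pow hP hr n))
    rw [← h3]
    refine integral_congr_ae (Eventually.of_forall fun x => ?_)
    simp only [hF, Pi.smul_apply, smul_eq_mul, mul_pow]
    ring
  simp only [h2] at h1
  have h3 := h1.unique hasSum_zero
  rw [← h3]
  refine integral_congr_ae (Eventually.of_forall fun x => ?_)
  simp only [hF]
  rw [tsum_mul_left]
  congr 1
  rw [Complex.exp_eq_exp_ℂ, NormedSpace.exp_eq_tsum_div]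

theorem ae_zero_of_orthW (g : GF V X μ) {ν : Measure Y} {N : X → Measure Y}
    (hN : IsPoisson μ ν N) {B : ℕ → Set Y} (hBmono : Monotone B)
    (hB : ∀ r, MeasurableSet (B r)) (hνB : ∀ r, ν (B r) < ⊤) {Pu : Set (X → ℂ)} (hP : UGroup Pu)
    (hgen : ∀ D : Set X, MeasurableSet D →
      ∃ D', MeasurableSet[⨆ i, MeasurableSpace.comap (KW g N B ν Pu i) (borel ℝ)] D' ∧ D =ᵐ[μ] D')
    {ε : ℝ} (hε : 0 < ε) (hε1 : ε ≤ 1 / 2) {φ : X → ℝ} (hφ : Integrable φ μ)
    (h : ∀ E ∈ Pu, ∀ (v : V) (r : ℕ) (u : Y → ℝ), Amp ε (B r) u →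
      ∫ x, ((φ x : ℂ) * E x * Complex.exp ((g.G v x : ℂ) * Complex.I)) *
        ((mf N u x : ℝ) : ℂ) ∂μ = 0) :
    φ =ᵐ[μ] 0 := by
  classical
  have hexm : ∀ v, Measurable fun x => Complex.exp ((g.G v x : ℂ) * Complex.I) := by
    intro v
    have := g.meas v
    fun_prop
  have hint : ∀ E ∈ Pu, ∀ v, Integrable
      (fun x => (φ x : ℂ) * E x * Complex.exp ((g.G v x : ℂ) * Complex.I)) μ := by
    intro E hE v
    refine ((hφ.ofReal (𝕜 := ℂ)).mul_bdd (c := 1) (hP.meas E hE).aestronglyMeasurable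
      (Eventually.of_forall fun x => (hP.norm E hE x).le)).mul_bdd (c := 1)
      (hexm v).aestronglyMeasurable ?_
    exact Eventually.of_forall fun x => by rw [Complex.norm_exp_ofReal_mul_I]
  -- all the test functions
  have hchar : ∀ E ∈ Pu, ∀ (v : V) (h : Y → ℝ), DensAux.Tst B h →
      ∫ x, ((φ x : ℂ) * Complex.exp ((((g.G v x + ∫ y, h y ∂(N x) : ℝ)) : ℂ) * Complex.I)) *
        E x ∂μ = 0 := by
    rintro E hE v h' ⟨h1, h2, r, h3⟩
    rw [← DensAux.char_zero hN (hνB r) hε hε1 (hint E hE v) (h E hE v r) h1 h2 h3]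
    refine integral_congr_ae (Eventually.of_forall fun x => ?_)
    simp only
    rw [Complex.ofReal_add, add_mul, Complex.exp_add]
    ring
  -- measurability of the process
  have hK0 : ∀ i, Measurable (KP g N B ν i) := by
    rintro (v | h)
    · exact g.meas v
    · exact measurable_integral_fin_real hN.1 h.2.1.meas h.2.1.fin
  have hK : ∀ i, Measurable (KW g N B ν Pu i) := by
    rintro (i | ⟨E, b⟩)
    · exact hK0 i
    · cases b
      · exact Complex.measurable_im.comp (hP.meas E.1 E.2)
      · exact Complex.measurable_re.comp (hP.meas E.1 E.2)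
  have hfin : ∀ᵐ x ∂μ, ∀ r, N x (B r) < ⊤ :=
    ae_all_iff.2 fun r => hN.ae_lt_top (hB r) (hνB r)
  have hset : ∀ D' : Set X,
      MeasurableSet[⨆ i, MeasurableSpace.comap (KW g N B ν Pu i) (borel ℝ)] D' →
      ∫ x in D', φ x ∂μ = 0 := by
    intro D' hD'
    refine setIntegral_eq_zero_of_char hK hφ (fun s t => ?_) hD'
    obtain ⟨vp, hvp⟩ : ∃ vp : (V ⊕ {h : Y → ℝ // Simp ν h ∧ ∃ r, Function.support h ⊆ B r}) ⊕
      (Pu × Bool) → V, vp = Sum.elim (Sum.elim (fun v => v) (fun _ => 0)) (fun _ => 0) := ⟨_, rfl⟩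
    obtain ⟨hp, hhp⟩ : ∃ hp : (V ⊕ {h : Y → ℝ // Simp ν h ∧ ∃ r, Function.support h ⊆ B r}) ⊕
      (Pu × Bool) → Y → ℝ, hp = Sum.elim (Sum.elim (fun _ _ => 0) (fun h => h.1)) (fun _ _ => 0) :=
      ⟨_, rfl⟩
    obtain ⟨rp, hrp⟩ : ∃ rp : (V ⊕ {h : Y → ℝ // Simp ν h ∧ ∃ r, Function.support h ⊆ B r}) ⊕
      (Pu × Bool) → X → ℝ, rp = Sum.elim (fun _ _ => 0)
        (fun p x => if p.2 then (p.1.1 x).re else (p.1.1 x).im) := ⟨_, rfl⟩
    have hT : ∀ i, DensAux.Tst B (hp i) := by
      rintro ((v | h) | p)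
      · rw [hhp]; exact DensAux.Tst.zero
      · rw [hhp]; exact ⟨h.2.1.meas, h.2.1.fin, h.2.2⟩
      · rw [hhp]; exact DensAux.Tst.zero
    have hKP : ∀ i x, KW g N B ν Pu i x = g.G (vp i) x + ∫ y, hp i y ∂(N x) + rp i x := by
      rintro ((v | h) | p) x
      · rw [hvp, hhp, hrp]
        simp [KW, KP]
      · rw [hvp, hhp, hrp]
        simp [KW, KP, g.zero]
      · rw [hvp, hhp, hrp]
        simp [KW, g.zero]
    have hrs : ∀ i, (fun x => ((rp i x : ℝ) : ℂ)) ∈ Submodule.span ℂ Pu := by
      rintro (i | ⟨⟨E, hE⟩, b⟩)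
      · rw [hrp]
        simp only [Sum.elim_inl, Complex.ofReal_zero]
        exact (Submodule.span ℂ Pu).zero_mem
      · have h1 : E ∈ Submodule.span ℂ Pu := Submodule.subset_span hE
        have h2 : (fun x => conj (E x)) ∈ Submodule.span ℂ Pu :=
          Submodule.subset_span (hP.cj E hE)
        cases b
        · have e : (fun x => ((rp (Sum.inr (⟨E, hE⟩, false)) x : ℝ) : ℂ)) =
              (1 / (2 * Complex.I)) • (E - fun x => conj (E x)) := by
            funext x
            rw [hrp]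
            simp only [Sum.elim_inr, Bool.false_eq_true, if_false, Pi.smul_apply, Pi.sub_apply,
              smul_eq_mul]
            rw [Complex.sub_conj]
            have := Complex.I_ne_zero
            field_simp
            push_cast
            ring
          rw [e]
          exact Submodule.smul_mem _ _ (Submodule.sub_mem _ h1 h2)
        · have e : (fun x => ((rp (Sum.inr (⟨E, hE⟩, true)) x : ℝ) : ℂ)) =
              (1 / 2 : ℂ) • (E + fun x => conj (E x)) := by
            funext x
            rw [hrp]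
            simp only [Sum.elim_inr, if_true, Pi.smul_apply, Pi.add_apply, smul_eq_mul]
            rw [Complex.add_conj]
            push_cast
            ring
          rw [e]
          exact Submodule.smul_mem _ _ (Submodule.add_mem _ h1 h2)
    have hrsum : (fun x => ((∑ i ∈ s, t i * rp i x : ℝ) : ℂ)) ∈ Submodule.span ℂ Pu := by
      have e : (fun x => ((∑ i ∈ s, t i * rp i x : ℝ) : ℂ)) =
          ∑ i ∈ s, (t i : ℂ) • fun x => ((rp i x : ℝ) : ℂ) := by
        funext x
        rw [Finset.sum_apply]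
        push_cast
        rfl
      rw [e]
      exact Submodule.sum_mem _ fun i _ => Submodule.smul_mem _ _ (hrs i)
    have hψm : Measurable fun x => Complex.exp ((((g.G (∑ i ∈ s, t i • vp i) x +
        ∫ y, (∑ i ∈ s, t i * hp i y) ∂(N x) : ℝ)) : ℂ) * Complex.I) := by
      have hTs := DensAux.Tst.sum hBmono s hT t
      have h1 : Measurable fun x => ∫ y, (∑ i ∈ s, t i * hp i y) ∂(N x) :=
        measurable_integral_fin_real hN.1 hTs.1 hTs.2.1
      have h2 := (g.meas (∑ i ∈ s, t i • vp i)).add h1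
      exact Complex.measurable_exp.comp ((Complex.measurable_ofReal.comp h2).mul_const _)
    have hψ : Integrable (fun x => (φ x : ℂ) * Complex.exp ((((g.G (∑ i ∈ s, t i • vp i) x +
        ∫ y, (∑ i ∈ s, t i * hp i y) ∂(N x) : ℝ)) : ℂ) * Complex.I)) μ :=
      (hφ.ofReal (𝕜 := ℂ)).mul_bdd (c := 1) hψm.aestronglyMeasurable
        (Eventually.of_forall fun x => by rw [Complex.norm_exp_ofReal_mul_I])
    rw [← integral_exp hP hψ (fun E hE => hchar E hE _ _ (DensAux.Tst.sum hBmono s hT t)) hrsum]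
    refine integral_congr_ae ?_
    filter_upwards [hfin] with x hx
    rw [mul_assoc, ← Complex.exp_add, ← add_mul, ← Complex.ofReal_add]
    congr 4
    rw [g.sum, integral_finsetSum _ (fun i _ => ((hT i).integrable hx).const_mul _),
      ← Finset.sum_add_distrib, ← Finset.sum_add_distrib]
    refine Finset.sum_congr rfl fun i _ => ?_
    rw [hKP, g.smul, integral_const_mul, mul_add, mul_add]
  refine Integrable.ae_eq_zero_of_forall_setIntegral_eq_zero hφ fun D hD _ => ?_
  obtain ⟨D', hD', hDD'⟩ := hgen D hD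
  rw [setIntegral_congr_set hDD']
  exact hset D' hD'

end Pool.Agent.Lib.Pf720pr
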