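import Pool.Agent.Lib.Pf720pr.MixedW

/-!
# Phase polynomials form a Borel set
-/

set_option autoImplicit false
set_option linter.unusedSectionVars false

open MeasureTheory Filter Topology ProbabilityTheory
open scoped ENNReal ComplexConjugate

namespace Pool.Agent.Lib.Pf720pr

open Pool.Agent.Lib.Pf720ae
open Pool.Agent.Lib.Pf720mp (Ex exs exs_apply exs_injective)

/-- values of real polynomials through the monomials -/
lemma eval_real' {κ : Type} [Fintype κ] [DecidableEq κ] {D : ℕ} (p : MvPolynomial κ ℝ)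
    (hD : p.totalDegree ≤ D) (y : κ → ℝ) :
    MvPolynomial.eval y p = ∑ γ : Ex κ D, p.coeff (exs γ) * ∏ l, y l ^ (γ l : ℕ) := by
  rw [MvPolynomial.eval_eq']
  have h1 : ∑ γ : Ex κ D, p.coeff (exs γ) * ∏ l, y l ^ (γ l : ℕ) =
      ∑ d ∈ (Finset.univ : Finset (Ex κ D)).map ⟨exs, exs_injective⟩,
        p.coeff d * ∏ i, y i ^ d i := by
    rw [Finset.sum_map]
    refine Finset.sum_congr rfl fun γ _ => ?_
    simp [exs_apply]
  rw [h1]
  refine Finset.sum_subset ?_ ?_
  · intro d hd
    rw [Finset.mem_map]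
    have hle : ∀ l, d l < D + 1 := by
      intro l
      have h2 : d l ≤ d.sum fun _ e => e := by
        by_cases hl : d l = 0
        · rw [hl]
          exact Nat.zero_le _
        · exact Finset.single_le_sum (f := fun l => d l) (fun _ _ => Nat.zero_le _)
            (Finsupp.mem_support_iff.2 hl)
      have h3 := MvPolynomial.le_totalDegree hd
      omega
    refine ⟨fun l => ⟨d l, hle l⟩, Finset.mem_univ _, ?_⟩
    ext l
    rfl
  · intro d _ hd
    rw [MvPolynomial.notMem_support_iff.1 hd, zero_mul]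

/-- sequences `u ↦ exp (i p(u))` -/
def PhSeq (d : ℕ) : Set ((Fin d → ℤ) → ℂ) :=
  {z | ∃ p : MvPolynomial (Fin d) ℝ, ∀ u : Fin d → ℤ,
    z u = Complex.exp ((MvPolynomial.eval (fun i => (u i : ℝ)) p : ℝ) * Complex.I)}

/-- parametrisation by the coefficients -/
noncomputable def phi (d D : ℕ) (c : Ex (Fin d) D → ℝ) (u : Fin d → ℤ) : ℂ :=
  Complex.exp (((∑ γ, c γ * ∏ i, (u i : ℝ) ^ (γ i : ℕ) : ℝ) : ℂ) * Complex.I)

lemma continuous_phi (d D : ℕ) : Continuous (phi d D) := by
  refine continuous_pi fun u => ?_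
  unfold phi
  fun_prop

lemma phSeq_eq (d : ℕ) : PhSeq d =
    ⋃ D : ℕ, ⋃ k : ℕ, phi d D '' (Metric.closedBall (0 : Ex (Fin d) D → ℝ) k) := by
  ext z
  simp only [Set.mem_iUnion, Set.mem_image]
  constructor
  · rintro ⟨p, hp⟩
    refine ⟨p.totalDegree, ?_⟩
    obtain ⟨k, hk⟩ := exists_nat_ge ‖fun γ : Ex (Fin d) p.totalDegree => p.coeff (exs γ)‖
    refine ⟨k, fun γ => p.coeff (exs γ), ?_, ?_⟩
    · rw [Metric.mem_closedBall, dist_zero_right]
      exact hk
    · funext u
      rw [hp u]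
      unfold phi
      rw [eval_real' p le_rfl]
  · rintro ⟨D, k, c, _, rfl⟩
    refine ⟨∑ γ : Ex (Fin d) D, MvPolynomial.monomial (exs γ) (c γ), fun u => ?_⟩
    unfold phi
    congr 3
    rw [map_sum]
    refine Finset.sum_congr rfl fun γ _ => ?_
    rw [MvPolynomial.eval_monomial, Finsupp.prod_fintype _ _ (fun _ => pow_zero _)]
    rfl

theorem measurableSet_phSeq (d : ℕ) : MeasurableSet (PhSeq d) := by
  rw [phSeq_eq]
  refine MeasurableSet.iUnion fun D => MeasurableSet.iUnion fun k => ?_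
  exact ((isCompact_closedBall _ _).image (continuous_phi d D)).isClosed.measurableSet

end Pool.Agent.Lib.Pf720pr
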