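import Pool.Agent.Lib.Pf720pq.FinalM

/-!
# Weights `exp (i P(m))`, `P` a real polynomial, are good for the polynomial ergodic theorem
-/

set_option autoImplicit false
set_option linter.unusedSectionVars false

open MeasureTheory Filter Topology ProbabilityTheory
open scoped ENNReal NNReal

namespace Pool.Agent.Lib.Pf720pr

open Pool.Agent.Lib.Pf720ae
open Pool.Agent.Lib.Pf720po (CSw)
open Pool.Agent.Lib.Pf720pq (lv lv_add lv_mon exists_pvs)
open Pool.Agent.Lib.Pf720mp (Ex mon exs exs_apply exs_injective Av bx ae_tendsto_bdd_mp)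
open Pool.Agent.Lib.Pf720pm (pv IsPol)

variable {X : Type} {mX : MeasurableSpace X} {μ : Measure X} {κ : Type} [Fintype κ]
  [DecidableEq κ] {d D : ℕ}

/-- `ρ` is a good weight for the averages of one function of several copies of the action -/
def GoodW (act : MAct (Fin d → ℤ) X μ) (ρ : (κ → ℕ) → ℝ) : Prop :=
  ∀ (C : Type) [Fintype C] [DecidableEq C] (e : C → (κ → ℕ) → Fin d → ℤ), (∀ c, IsPol (e c)) →
    ∀ F : (C → X) → ℝ, Measurable F → (∀ ω, |F ω| ≤ 1) →
      ∀ᵐ ω ∂(Measure.pi fun _ : C => μ), Cvg fun m : κ → ℕ =>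
        ρ m * F (fun c => act.S (e c m) (ω c))

/-- values of real polynomials through the monomials -/
lemma eval_real {D : ℕ} (p : MvPolynomial κ ℝ) (hD : p.totalDegree ≤ D) (m : κ → ℕ) :
    MvPolynomial.eval (fun l => (m l : ℝ)) p =
      ∑ γ : Ex κ D, p.coeff (exs γ) * (mon m γ : ℝ) := by
  rw [MvPolynomial.eval_eq']
  have h1 : ∑ γ : Ex κ D, p.coeff (exs γ) * (mon m γ : ℝ) =
      ∑ d ∈ (Finset.univ : Finset (Ex κ D)).map ⟨exs, exs_injective⟩,
        p.coeff d * ∏ i, (m i : ℝ) ^ d i := by
    rw [Finset.sum_map]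
    refine Finset.sum_congr rfl fun γ _ => ?_
    simp [mon, exs_apply]
  rw [h1]
  refine Finset.sum_subset ?_ ?_
  · intro d hd
    rw [Finset.mem_map]
    have hle : ∀ l, d l < D + 1 := by
      intro l
      have h2 : d l ≤ d.sum fun _ e => e := by
        by_cases hl : d l = 0
        · rw [hl]
          exact Nat.zero_le _
        · exact Finset.single_le_sum (f := fun l => d l) (fun _ _ => Nat.zero_le _)
            (Finsupp.mem_support_iff.2 hl)
      have h3 := MvPolynomial.le_totalDegree hd
      omega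
    refine ⟨fun l => ⟨d l, hle l⟩, Finset.mem_univ _, ?_⟩
    ext l
    rfl
  · intro d _ hd
    rw [MvPolynomial.notMem_support_iff.1 hd, zero_mul]

/-- larger degree bound -/
lemma exists_pv_ge {D D' : ℕ} (h : D ≤ D') (a : Ex κ D → Fin d → ℤ) :
    ∃ a' : Ex κ D' → Fin d → ℤ, ∀ m : κ → ℕ, pv a' m = pv a m := by
  classical
  set ι : Ex κ D → Ex κ D' := fun γ l => Fin.castLE (Nat.succ_le_succ h) (γ l) with hι
  have hinj : Function.Injective ι := by
    intro γ δ hγ
    funext l
    exact Fin.castLE_injective _ (congrFun hγ l)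
  refine ⟨fun γ' => ∑ γ, if ι γ = γ' then a γ else 0, fun m => ?_⟩
  unfold pv
  simp only [Finset.smul_sum, smul_ite, smul_zero]
  rw [Finset.sum_comm]
  refine Finset.sum_congr rfl fun γ _ => ?_
  rw [Finset.sum_ite_eq]
  simp only [Finset.mem_univ, if_true]
  congr 1

/-- polynomial phases are good weights -/
theorem goodW_poly [IsProbabilityMeasure μ] (act : MAct (Fin d → ℤ) X μ) (P : MvPolynomial κ ℝ) :
    GoodW act (fun m : κ → ℕ => Real.cos (MvPolynomial.eval (fun l => (m l : ℝ)) P)) ∧
    GoodW act (fun m : κ → ℕ => Real.sin (MvPolynomial.eval (fun l => (m l : ℝ)) P)) := by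
  classical
  have hmain : ∀ (C : Type) [Fintype C] [DecidableEq C] (e : C → (κ → ℕ) → Fin d → ℤ),
      (∀ c, IsPol (e c)) → ∀ F : (C → X) → ℝ, Measurable F → (∀ ω, |F ω| ≤ 1) →
      ∀ᵐ ω ∂(Measure.pi fun _ : C => μ),
        Cvg (fun m : κ → ℕ => Real.cos (MvPolynomial.eval (fun l => (m l : ℝ)) P) *
          F (fun c => act.S (e c m) (ω c))) ∧
        Cvg (fun m : κ → ℕ => Real.sin (MvPolynomial.eval (fun l => (m l : ℝ)) P) *
          F (fun c => act.S (e c m) (ω c))) := by
    intro C _ _ e he F hF hF1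
    obtain ⟨D₁, a₁, ha₁⟩ := exists_pvs he
    set D := max D₁ P.totalDegree with hDdef
    choose a ha using fun c => exists_pv_ge (κ := κ) (le_max_left D₁ P.totalDegree) (a₁ c)
    have hea : ∀ c m, e c m = pv (a c) m := fun c m => by rw [ha₁, ha]
    set Θ : Ex κ D → ℝ := fun γ => P.coeff (exs γ) with hΘ
    have hP : ∀ m : κ → ℕ, MvPolynomial.eval (fun l => (m l : ℝ)) P =
        ∑ γ : Ex κ D, Θ γ * (mon m γ : ℝ) := fun m => eval_real P (le_max_right _ _) m
    have : Fact (0 < 2 * Real.pi) := ⟨by positivity⟩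
    set R : (Ex κ D → ℕ) → (C → X) × AddCircle (2 * Real.pi) → (C → X) × AddCircle (2 * Real.pi) :=
      fun v p => (fun c => act.S (lv (a c) v) (p.1 c), ((∑ γ, Θ γ * (v γ : ℝ) : ℝ) :
        AddCircle (2 * Real.pi)) + p.2) with hR
    have hadd : ∀ m n x, R (m + n) x = R m (R n x) := by
      intro m n x
      refine Prod.ext ?_ ?_
      · funext c
        simp only [hR]
        rw [lv_add, act.add]
      · simp only [hR]
        rw [← add_assoc, ← AddCircle.coe_add]
        congr 2
        rw [← Finset.sum_add_distrib]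
        refine Finset.sum_congr rfl fun γ _ => ?_
        rw [Pi.add_apply]
        push_cast
        ring
    have hmp : ∀ m, MeasurePreserving (R m)
        ((Measure.pi fun _ : C => μ).prod AddCircle.haarAddCircle)
        ((Measure.pi fun _ : C => μ).prod AddCircle.haarAddCircle) := fun m =>
      (measurePreserving_pi _ _ fun c => act.mp _).prod (measurePreserving_add_left _ _)
    set G : (C → X) × AddCircle (2 * Real.pi) → ℂ := fun p => (F p.1 : ℂ) * fourier 1 p.2 with hG
    have hGm : Measurable G := (Complex.measurable_ofReal.comp (hF.comp measurable_fst)).mul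
      ((fourier 1).continuous.measurable.comp measurable_snd)
    have hG1 : ∀ p, ‖G p‖ ≤ 1 := by
      intro p
      simp only [hG]
      rw [norm_mul, Complex.norm_real]
      have h1 : ‖(fourier 1 p.2 : ℂ)‖ = 1 := by
        rw [fourier_apply]
        exact Circle.norm_coe _
      rw [h1, mul_one]
      exact hF1 _
    have hfin : ∫⁻ x, ‖G x‖ₑ ^ 2 ∂((Measure.pi fun _ : C => μ).prod
        (AddCircle.haarAddCircle (T := 2 * Real.pi))) ≠ ⊤ := by
      have h3 : ∫⁻ x, ‖G x‖ₑ ^ 2 ∂((Measure.pi fun _ : C => μ).prod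
          (AddCircle.haarAddCircle (T := 2 * Real.pi))) ≤
          ∫⁻ _, 1 ∂((Measure.pi fun _ : C => μ).prod
          (AddCircle.haarAddCircle (T := 2 * Real.pi))) := by
        refine lintegral_mono fun x => ?_
        have h4 : ‖G x‖ₑ ≤ 1 := by
          rw [← ofReal_norm]
          exact ENNReal.ofReal_le_one.2 (hG1 x)
        exact pow_le_one₀ zero_le h4
      refine ne_top_of_le_ne_top ?_ h3
      rw [lintegral_one]
      exact measure_ne_top _ _
    have hconv := ae_tendsto_bdd_mp hadd hmp hGm hG1 hfin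
    filter_upwards [Measure.ae_ae_of_ae_prod hconv] with ω hω
    obtain ⟨z, ℓ, hℓ⟩ := hω.exists
    -- the phase
    have hval : ∀ m : κ → ℕ, G (R (mon m) (ω, z)) = fourier 1 z *
        ((F (fun c => act.S (e c m) (ω c)) : ℂ) *
          Complex.exp ((MvPolynomial.eval (fun l => (m l : ℝ)) P : ℝ) * Complex.I)) := by
      intro m
      simp only [hG, hR]
      have h1 : (fun c => act.S (lv (a c) (mon m)) (ω c)) = fun c => act.S (e c m) (ω c) := by
        funext c
        rw [lv_mon, hea]
      rw [h1, ← hP m]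
      have h2 : (fourier 1 (((MvPolynomial.eval (fun l => (m l : ℝ)) P : ℝ) :
          AddCircle (2 * Real.pi)) + z) : ℂ) =
          Complex.exp ((MvPolynomial.eval (fun l => (m l : ℝ)) P : ℝ) * Complex.I) *
            fourier 1 z := by
        rw [fourier_apply, fourier_apply, smul_add, AddCircle.toCircle_add, Circle.coe_mul]
        congr 1
        rw [← fourier_apply, fourier_coe_apply]
        congr 1
        push_cast
        field_simp
      rw [h2]
      ring
    have hz : (fourier 1 z : ℂ) ≠ 0 := by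
      rw [fourier_apply]
      exact Circle.coe_ne_zero _
    have h3 : Tendsto (fun M : κ → ℕ => (∏ l, (M l : ℂ))⁻¹ * ∑ m ∈ bx M,
        ((F (fun c => act.S (e c m) (ω c)) : ℂ) *
          Complex.exp ((MvPolynomial.eval (fun l => (m l : ℝ)) P : ℝ) * Complex.I)))
        atTop (𝓝 ((fourier 1 z : ℂ)⁻¹ * ℓ)) := by
      refine (hℓ.const_mul ((fourier 1 z : ℂ)⁻¹)).congr fun M => ?_
      simp only [Av, hval]
      rw [← Finset.mul_sum, mul_left_comm ((∏ l, (M l : ℂ))⁻¹), inv_mul_cancel_left₀ hz]
    have h4 : ∀ M : κ → ℕ, (∏ l, (M l : ℂ))⁻¹ * ∑ m ∈ bx M,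
        ((F (fun c => act.S (e c m) (ω c)) : ℂ) *
          Complex.exp ((MvPolynomial.eval (fun l => (m l : ℝ)) P : ℝ) * Complex.I)) =
        ((avg M fun m => Real.cos (MvPolynomial.eval (fun l => (m l : ℝ)) P) *
          F (fun c => act.S (e c m) (ω c)) : ℝ) : ℂ) +
        ((avg M fun m => Real.sin (MvPolynomial.eval (fun l => (m l : ℝ)) P) *
          F (fun c => act.S (e c m) (ω c)) : ℝ) : ℂ) * Complex.I := by
      intro M
      unfold avg
      push_cast
      rw [mul_assoc, Finset.sum_mul, ← mul_add, ← Finset.sum_add_distrib]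
      congr 1
      refine Finset.sum_congr rfl fun m _ => ?_
      rw [Complex.exp_mul_I]
      ring
    constructor
    · refine ⟨_, ((Complex.continuous_re.tendsto _).comp h3).congr fun M => ?_⟩
      simp only [Function.comp_apply]
      rw [h4]
      simp
    · refine ⟨_, ((Complex.continuous_im.tendsto _).comp h3).congr fun M => ?_⟩
      simp only [Function.comp_apply]
      rw [h4]
      simp
  exact ⟨fun C _ _ e he F hF hF1 => (hmain C e he F hF hF1).mono fun ω h => h.1,
    fun C _ _ e he F hF hF1 => (hmain C e he F hF hF1).mono fun ω h => h.2⟩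

end Pool.Agent.Lib.Pf720pr
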